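import Pool.Agent.Q14.HV.Main

/-!
# The horizontal law for almost all vectors is equivalent to the vertical law
-/

set_option autoImplicit false

namespace Pool.Agent.Q14.HV

open Finset Pool.Agent.Q14.ST

open Classical in
/-- **Horizontal law for almost all vectors iff vertical law.** -/
theorem law_iff (ι : Type) [Fintype ι] [DecidableEq ι] {K c : ℝ} (hK : 0 ≤ K) (hc : 0 ≤ c)
    (Good : (p : ℕ) → (ι → ZMod p) → Prop) (F : (p : ℕ) → (ι → ZMod p) → ℝ)
    (hF : ∀ p : ℕ, p.Prime → ∀ r, Good p r → |F p r| ≤ K) (hfew : Few Good c) (v : ℝ) :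
    (∀ ε : ℝ, 0 < ε → ∃ p₀ : ℕ, ∀ p : ℕ, p.Prime → p₀ ≤ p → |vert Good F p - v| ≤ ε) ↔
    ∀ ε : ℝ, 0 < ε → ∃ C : ℝ, ∀ (X L J Q : ℕ) (A : ι → ℤ) (P : ℕ → ℕ), 1 ≤ L → 1 ≤ X →
      Q ^ 3 ≤ X → (∀ i < J, (P i).Prime ∧ P i ≤ Q) → Set.InjOn P (Set.Iio J) →
      (((box A X).filter fun n => ∃ j, L ≤ j ∧ j ≤ J ∧ ε < |hor Good F P n j - v|).card : ℝ) ≤
        C * (1 / (L : ℝ) ^ ((1 : ℝ) / 8)) * (X : ℝ) ^ Fintype.card ι := by
  obtain ⟨C1, hC1, h1⟩ := hvGood ι (δ := 1 / 4) (by norm_num) (by norm_num) hK hc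
  have hvb : ∀ p : ℕ, p.Prime → |vert Good F p| ≤ K := by
    intro p hp
    haveI : NeZero p := ⟨hp.ne_zero⟩
    exact abs_vert Good F hK (hF p hp)
  have hpow : ∀ ε : ℝ, 0 < ε → ∃ L₁ : ℕ, ∀ j : ℕ, L₁ ≤ j → (j : ℝ) ^ (-(1 / 2) + 1 / 4 : ℝ) ≤ ε := by
    intro ε hε
    have h := (tendsto_rpow_neg_atTop (show (0 : ℝ) < 1 / 4 by norm_num)).comp
      tendsto_natCast_atTop_atTop
    obtain ⟨L₁, hL₁⟩ := Filter.eventually_atTop.1 (h.eventually (gt_mem_nhds hε))
    refine ⟨L₁, fun j hj => ?_⟩
    have := hL₁ j hj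
    simp only [Function.comp] at this
    rw [show (-(1 / 2) + 1 / 4 : ℝ) = -(1 / 4) by norm_num]
    exact this.le
  constructor
  · intro hV ε hε
    obtain ⟨p₀, hp₀⟩ := hV (ε / 4) (by positivity)
    obtain ⟨L₁, hL₁⟩ := hpow (ε / 4) (by positivity)
    obtain ⟨L₂, hL₂⟩ := exists_nat_gt ((p₀ * (K + |v|)) / (ε / 4))
    set L₀ := max L₁ (L₂ + 1) with hL₀
    refine ⟨C1 + (L₀ : ℝ) ^ ((1 : ℝ) / 8), ?_⟩
    intro X L J Q A P hL hX hQX hP hinj
    set B := (box A X).filter fun n => ∃ j, L ≤ j ∧ j ≤ J ∧ ε < |hor Good F P n j - v| with hB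
    set W := (X : ℝ) ^ Fintype.card ι with hW
    have hX0 : (0 : ℝ) < X := by exact_mod_cast hX
    have hW0 : 0 < W := by positivity
    have hL1 : (1 : ℝ) ≤ L := by exact_mod_cast hL
    have hLp : 0 < (L : ℝ) ^ ((1 : ℝ) / 8) := by positivity
    have hnn : 0 ≤ (L₀ : ℝ) ^ ((1 : ℝ) / 8) := by positivity
    rcases lt_or_ge L L₀ with hsmall | hlarge
    · have hB1 : (B.card : ℝ) ≤ W := by
        have := card_le_card (filter_subset (fun n => ∃ j, L ≤ j ∧ j ≤ J ∧ ε < |hor Good F P n j - v|)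
          (box A X))
        rw [box_card] at this
        rw [hW]
        exact_mod_cast this
      refine hB1.trans ?_
      have h2 : 1 ≤ (L₀ : ℝ) ^ ((1 : ℝ) / 8) * (1 / (L : ℝ) ^ ((1 : ℝ) / 8)) := by
        rw [mul_one_div, le_div_iff₀ hLp, one_mul]
        exact Real.rpow_le_rpow (by positivity) (by exact_mod_cast hsmall.le) (by norm_num)
      calc W = 1 * W := (one_mul _).symm
        _ ≤ ((L₀ : ℝ) ^ ((1 : ℝ) / 8) * (1 / (L : ℝ) ^ ((1 : ℝ) / 8))) * W :=
            mul_le_mul_of_nonneg_right h2 hW0.le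
        _ ≤ _ := by
          refine mul_le_mul_of_nonneg_right ?_ hW0.le
          refine mul_le_mul_of_nonneg_right ?_ (by positivity)
          linarith
    · have h2 := h1 Good F hF hfew X L J Q A P hL hX hQX hP hinj B (filter_subset _ _) (by
        intro n hn
        obtain ⟨j, hLj, hjJ, hlt⟩ := (mem_filter.1 hn).2
        refine ⟨j, hLj, hjJ, ?_⟩
        have hj1 : (1 : ℝ) ≤ j := by exact_mod_cast hL.trans hLj
        have hj0 : (0 : ℝ) < j := by linarith
        have hjL1 : L₁ ≤ j := (le_max_left _ _).trans (hlarge.trans hLj)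
        have hjL2 : (L₂ : ℝ) ≤ j := by
          have : L₂ ≤ j := by
            have := (le_max_right L₁ (L₂ + 1)).trans (hlarge.trans hLj)
            omega
          exact_mod_cast this
        -- the mean of the vertical means is near `v`
        have hmean : |(∑ i ∈ range j, vert Good F (P i)) / j - v| ≤ ε / 2 := by
          have e1 : (∑ i ∈ range j, vert Good F (P i)) / j - v =
              (∑ i ∈ range j, (vert Good F (P i) - v)) / j := by
            rw [sum_sub_distrib, sum_const, card_range, nsmul_eq_mul]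
            field_simp
          rw [e1, abs_div, abs_of_pos hj0, div_le_iff₀ hj0]
          have e2 : |∑ i ∈ range j, (vert Good F (P i) - v)| ≤
              ∑ i ∈ range j, ((if P i < p₀ then (K + |v|) else 0) + ε / 4) := by
            refine (abs_sum_le_sum_abs _ _).trans (sum_le_sum fun i hi => ?_)
            have hpi := (hP i (lt_of_lt_of_le (mem_range.1 hi) hjJ)).1
            by_cases hlt' : P i < p₀
            · rw [if_pos hlt']
              have := abs_sub (vert Good F (P i)) v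
              have := hvb (P i) hpi
              linarith
            · rw [if_neg hlt', zero_add]
              exact hp₀ (P i) hpi (by omega)
          refine e2.trans ?_
          rw [sum_add_distrib, ← sum_filter, sum_const, sum_const, card_range, nsmul_eq_mul,
            nsmul_eq_mul]
          have e3 : (((range j).filter fun i => P i < p₀).card : ℝ) ≤ p₀ := by
            have : ((range j).filter fun i => P i < p₀).card ≤ (range p₀).card := by
              refine card_le_card_of_injOn P ?_ ?_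
              · intro i hi
                rw [mem_coe, mem_filter] at hi
                exact mem_coe.2 (mem_range.2 hi.2)
              · intro a ha b hb hab
                rw [mem_coe, mem_filter, mem_range] at ha hb
                exact hinj (lt_of_lt_of_le ha.1 hjJ) (lt_of_lt_of_le hb.1 hjJ) hab
            rw [card_range] at this
            exact_mod_cast this
          have hKv : 0 ≤ K + |v| := by positivity
          have e4 := mul_le_mul_of_nonneg_right e3 hKv
          have e5 : (p₀ : ℝ) * (K + |v|) ≤ ε / 4 * j := by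
            have h6 : (p₀ * (K + |v|)) / (ε / 4) ≤ j := hL₂.le.trans hjL2
            rw [div_le_iff₀ (by positivity)] at h6
            linarith
          linarith
        have h3 := hL₁ j hjL1
        have h4 := abs_sub_le (hor Good F P n j) ((∑ i ∈ range j, vert Good F (P i)) / j) v
        linarith)
      refine h2.trans ?_
      have e0 : ((1 : ℝ) / 4 / 2) = 1 / 8 := by norm_num
      rw [e0]
      refine mul_le_mul_of_nonneg_right ?_ hW0.le
      refine mul_le_mul_of_nonneg_right ?_ (by positivity)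
      linarith
  · intro hH
    by_contra hno
    push Not at hno
    obtain ⟨ε, hε, hno⟩ := hno
    -- infinitely many primes with a deviation of constant sign
    have hinf : ∃ s : ℝ, (s = 1 ∨ s = -1) ∧ {p : ℕ | p.Prime ∧ ε < s * (vert Good F p - v)}.Infinite := by
      have h2 : ({p : ℕ | p.Prime ∧ ε < 1 * (vert Good F p - v)} ∪
          {p : ℕ | p.Prime ∧ ε < -1 * (vert Good F p - v)}).Infinite := by
        rw [Set.infinite_iff_exists_gt]
        intro a
        obtain ⟨p, hp, hap, hlt⟩ := hno (a + 1)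
        refine ⟨p, ?_, by omega⟩
        rcases lt_abs.1 hlt with h | h
        · exact Or.inl ⟨hp, by linarith⟩
        · exact Or.inr ⟨hp, by linarith⟩
      rcases Set.infinite_union.1 h2 with h | h
      · exact ⟨1, Or.inl rfl, h⟩
      · exact ⟨-1, Or.inr rfl, h⟩
    obtain ⟨s, hs, hinf⟩ := hinf
    obtain ⟨C2, h2⟩ := hH (ε / 4) (by positivity)
    obtain ⟨L₁, hL₁⟩ := hpow (ε / 4) (by positivity)
    -- the length
    obtain ⟨m, hm1, hm2, hm3⟩ : ∃ m : ℕ, 1 ≤ m ∧ L₁ ≤ m ∧
        (C1 + |C2|) * (1 / (m : ℝ) ^ ((1 : ℝ) / 8)) < 1 := by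
      have h := ((tendsto_rpow_neg_atTop (show (0 : ℝ) < 1 / 8 by norm_num)).comp
        tendsto_natCast_atTop_atTop).const_mul (C1 + |C2|)
      rw [mul_zero] at h
      obtain ⟨m₀, hm₀⟩ := Filter.eventually_atTop.1 (h.eventually (gt_mem_nhds one_pos))
      refine ⟨max m₀ (max L₁ 1), ?_, ?_, ?_⟩
      · exact (le_max_right _ _).trans (le_max_right _ _)
      · exact (le_max_left _ _).trans (le_max_right _ _)
      · have := hm₀ (max m₀ (max L₁ 1)) (le_max_left _ _)
        simp only [Function.comp] at this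
        rw [Real.rpow_neg (Nat.cast_nonneg _), ← one_div] at this
        exact this
    set P : ℕ → ℕ := Nat.nth (fun p => p.Prime ∧ ε < s * (vert Good F p - v)) with hPd
    have hPm : ∀ i, (P i).Prime ∧ ε < s * (vert Good F (P i) - v) := fun i =>
      Nat.nth_mem_of_infinite hinf i
    have hPinj : Function.Injective P := Nat.nth_injective hinf
    set Q := (range m).sup P with hQ
    have hPQ : ∀ i < m, (P i).Prime ∧ P i ≤ Q := fun i hi =>
      ⟨(hPm i).1, le_sup (f := P) (mem_range.2 hi)⟩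
    have hQ1 : 1 ≤ Q := Nat.succ_le_of_lt (lt_of_lt_of_le (hPm 0).1.pos (hPQ 0 (by omega)).2)
    have hX1 : 1 ≤ Q ^ 3 := Nat.one_le_pow _ _ hQ1
    have hb2 := h2 (Q ^ 3) m m Q (fun _ => 0) P hm1 hX1 le_rfl hPQ hPinj.injOn
    set B2 := (box (fun _ : ι => (0 : ℤ)) (Q ^ 3)).filter
      (fun n => ∃ j, m ≤ j ∧ j ≤ m ∧ ε / 4 < |hor Good F P n j - v|) with hB2
    set B1 := (box (fun _ : ι => (0 : ℤ)) (Q ^ 3)).filter
      (fun n => ∃ j, m ≤ j ∧ j ≤ m ∧ (j : ℝ) ^ (-(1 / 2) + 1 / 4 : ℝ) <
          |hor Good F P n j - (∑ i ∈ range j, vert Good F (P i)) / j|) with hB1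
    have hb1 := h1 Good F hF hfew (Q ^ 3) m m Q (fun _ => 0) P hm1 hX1 le_rfl hPQ hPinj.injOn
      B1 (filter_subset _ _) (fun n hn => (mem_filter.1 hn).2)
    set W := (((Q ^ 3 : ℕ) : ℝ)) ^ Fintype.card ι with hW
    have hW0 : 0 < W := by
      have : (0 : ℝ) < ((Q ^ 3 : ℕ) : ℝ) := by exact_mod_cast hX1
      positivity
    have hlt : ((B1 ∪ B2).card : ℝ) < ((box (fun _ : ι => (0 : ℤ)) (Q ^ 3)).card : ℝ) := by
      have e0 : ((1 : ℝ) / 4 / 2) = 1 / 8 := by norm_num
      rw [e0] at hb1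
      have e1 : ((B1 ∪ B2).card : ℝ) ≤ B1.card + B2.card := by exact_mod_cast card_union_le _ _
      have e2 : ((box (fun _ : ι => (0 : ℤ)) (Q ^ 3)).card : ℝ) = W := by
        rw [box_card, hW]
        push_cast
        rfl
      rw [e2]
      have hmp : 0 ≤ 1 / (m : ℝ) ^ ((1 : ℝ) / 8) := by positivity
      have e3 : C2 * (1 / (m : ℝ) ^ ((1 : ℝ) / 8)) * W ≤ |C2| * (1 / (m : ℝ) ^ ((1 : ℝ) / 8)) * W :=
        mul_le_mul_of_nonneg_right (mul_le_mul_of_nonneg_right (le_abs_self _) hmp) hW0.le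
      have e4 := mul_lt_mul_of_pos_right hm3 hW0
      nlinarith
    have hex : ∃ n ∈ box (fun _ : ι => (0 : ℤ)) (Q ^ 3), n ∉ B1 ∪ B2 := by
      by_contra hcon
      push Not at hcon
      have : box (fun _ : ι => (0 : ℤ)) (Q ^ 3) ⊆ B1 ∪ B2 := hcon
      have := card_le_card this
      have h' : ((box (fun _ : ι => (0 : ℤ)) (Q ^ 3)).card : ℝ) ≤ ((B1 ∪ B2).card : ℝ) := by
        exact_mod_cast this
      linarith
    obtain ⟨n, hnb, hn⟩ := hex
    rw [mem_union, hB1, hB2, mem_filter, mem_filter] at hn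
    push Not at hn
    obtain ⟨hn1, hn2⟩ := hn
    have k1 := hn1 hnb m le_rfl le_rfl
    have k2 := hn2 hnb m le_rfl le_rfl
    have k3 := hL₁ m hm2
    have hm0 : (0 : ℝ) < m := by exact_mod_cast hm1
    have k4 : |(∑ i ∈ range m, vert Good F (P i)) / m - v| ≤ ε / 2 := by
      have h8 := abs_sub_le ((∑ i ∈ range m, vert Good F (P i)) / m) (hor Good F P n m) v
      have h9 := abs_sub_comm ((∑ i ∈ range m, vert Good F (P i)) / m) (hor Good F P n m)
      linarith
    have k5 : ε * m ≤ s * ((∑ i ∈ range m, vert Good F (P i)) - m * v) := by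
      have e1 : s * ((∑ i ∈ range m, vert Good F (P i)) - m * v) =
          ∑ i ∈ range m, s * (vert Good F (P i) - v) := by
        rw [← mul_sum, sum_sub_distrib, sum_const, card_range, nsmul_eq_mul]
      rw [e1]
      calc ε * m = ∑ _i ∈ range m, ε := by rw [sum_const, card_range, nsmul_eq_mul, mul_comm]
        _ ≤ _ := sum_le_sum fun i _ => (hPm i).2.le
    have k6 : s * ((∑ i ∈ range m, vert Good F (P i)) - m * v) =
        s * ((∑ i ∈ range m, vert Good F (P i)) / m - v) * m := by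
      field_simp
    rw [k6] at k5
    have k7 : ε ≤ s * ((∑ i ∈ range m, vert Good F (P i)) / m - v) := le_of_mul_le_mul_right k5 hm0
    have k8 : s * ((∑ i ∈ range m, vert Good F (P i)) / m - v) ≤
        |(∑ i ∈ range m, vert Good F (P i)) / m - v| := by
      rcases hs with h | h
      · rw [h, one_mul]; exact le_abs_self _
      · rw [h, neg_one_mul]; exact neg_le_abs _
    linarith

end Pool.Agent.Q14.HV
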