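import Pool.Agent.Q14.HV.Max
import Pool.Agent.Q14.ST.Scales

/-!
# Horizontal means are vertical means, with square-root error, at all scales
-/

set_option autoImplicit false

namespace Pool.Agent.Q14.HV

open Finset Pool.Agent.Q14.ST

variable {ι : Type} [Fintype ι] [DecidableEq ι]

lemma seq_card {J Q : ℕ} {P : ℕ → ℕ} (hP : ∀ i < J, (P i).Prime ∧ P i ≤ Q)
    (hinj : Set.InjOn P (Set.Iio J)) : J ≤ Q := by
  have h : ((range J).image P).card ≤ (Icc 1 Q).card := by
    refine card_le_card fun p hp => ?_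
    rw [mem_image] at hp
    obtain ⟨i, hi, rfl⟩ := hp
    have := hP i (mem_range.1 hi)
    rw [mem_Icc]
    exact ⟨this.1.pos, this.2⟩
  rw [card_image_of_injOn (by
    intro a ha b hb hab
    rw [mem_coe, mem_range] at ha hb
    exact hinj ha hb hab), card_range, Nat.card_Icc] at h
  omega

/-- **Square-root cancellation at all scales.** -/
theorem hv (ι : Type) [Fintype ι] [DecidableEq ι] {δ K : ℝ} (hδ : 0 < δ) (hK : 0 ≤ K) :
    ∃ C : ℝ, 0 ≤ C ∧ ∀ (G : (p : ℕ) → (ι → ZMod p) → ℝ), (∀ p : ℕ, p.Prime → ∀ r, |G p r| ≤ K) →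
      ∀ (X L J Q : ℕ) (A : ι → ℤ) (P : ℕ → ℕ), 1 ≤ L → 1 ≤ X → Q ^ 3 ≤ X →
      (∀ i < J, (P i).Prime ∧ P i ≤ Q) → Set.InjOn P (Set.Iio J) →
      ∀ B : Finset (ι → ℤ), B ⊆ box A X →
        (∀ n ∈ B, ∃ j, L ≤ j ∧ j ≤ J ∧ (j : ℝ) ^ (1 / 2 + δ) < |dev G P n j|) →
        (B.card : ℝ) ≤ C * (1 / (L : ℝ) ^ δ) * (X : ℝ) ^ Fintype.card ι := by
  obtain ⟨C₀, hC₀, hC⟩ := all_scales hδ
  set N := Fintype.card ι with hN
  refine ⟨C₀ * (4 * K ^ 2 * (1 + 2 ^ N)), by positivity, ?_⟩
  intro G hG X L J Q A P hL hX hQX hP hinj B hB hBj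
  have hX0 : (0 : ℝ) < X := by exact_mod_cast hX
  have hJQ := seq_card hP hinj
  set V : ℝ := 4 * K ^ 2 * (1 + 2 ^ N) * (X : ℝ) ^ N with hV
  have hV0 : 0 ≤ V := by positivity
  set T : ℕ → (ι → ℤ) → ℝ := fun i n =>
    if i < J then G (P i) (red (P i) n) - mean (P i) (G (P i)) else 0 with hT
  have hQ2 : Q ^ 2 ≤ X := by
    rcases Nat.eq_zero_or_pos Q with h | h
    · rw [h]; positivity
    · calc Q ^ 2 ≤ Q ^ 3 := Nat.pow_le_pow_right h (by norm_num)
        _ ≤ X := hQX
  have hblock : ∀ a l : ℕ, ∑ n ∈ box A X, (∑ i ∈ Ico a (a + l), T i n) ^ 2 ≤ V * l := by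
    intro a l
    set R := (Ico a (a + l)).filter (fun i => i < J) with hR
    have hRJ : ∀ i ∈ R, i < J := fun i hi => (mem_filter.1 hi).2
    have hinj' : Set.InjOn P ((R : Finset ℕ) : Set ℕ) := by
      intro x hx y hy hxy
      exact hinj (hRJ x hx) (hRJ y hy) hxy
    have h1 : ∀ n : ι → ℤ, ∑ i ∈ Ico a (a + l), T i n =
        ∑ p ∈ R.image P, (G p (red p n) - mean p (G p)) := by
      intro n
      rw [sum_image (fun x hx y hy hxy => hinj' hx hy hxy), hR, sum_filter]
    simp only [h1]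
    have h2 := second_moment (P := R.image P) (by
      intro p hp
      rw [mem_image] at hp
      obtain ⟨i, hi, rfl⟩ := hp
      exact (hP i (hRJ i hi)).1) (Q := Q) (by
      intro p hp
      rw [mem_image] at hp
      obtain ⟨i, hi, rfl⟩ := hp
      exact (hP i (hRJ i hi)).2) hQ2 hX A G hK (by
      intro p hp r
      rw [mem_image] at hp
      obtain ⟨i, hi, rfl⟩ := hp
      exact hG _ (hP i (hRJ i hi)).1 r)
    refine h2.trans ?_
    have hc : (R.image P).card = R.card := card_image_of_injOn hinj'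
    rw [hc]
    have hRl : (R.card : ℝ) ≤ l := by
      have : R.card ≤ l := by
        refine (card_filter_le _ _).trans ?_
        rw [Nat.card_Ico]; omega
      exact_mod_cast this
    have hRQ : (R.card : ℝ) ≤ Q := by
      have : R.card ≤ J := by
        calc R.card ≤ (range J).card := card_le_card fun i hi => mem_range.2 (hRJ i hi)
          _ = J := card_range J
      exact_mod_cast this.trans hJQ
    have hQX' : (Q : ℝ) ^ 3 ≤ X := by exact_mod_cast hQX
    have h3 : ((Q : ℝ) ^ 2 / X) * (R.card : ℝ) ^ 2 ≤ R.card := by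
      have h4 : ((Q : ℝ) ^ 2 / X) * (R.card : ℝ) ^ 2 = ((Q : ℝ) ^ 2 * R.card / X) * R.card := by
        field_simp
      rw [h4]
      have h5 : (Q : ℝ) ^ 2 * R.card / X ≤ 1 := by
        rw [div_le_one hX0]
        calc (Q : ℝ) ^ 2 * R.card ≤ (Q : ℝ) ^ 2 * Q := mul_le_mul_of_nonneg_left hRQ (by positivity)
          _ = (Q : ℝ) ^ 3 := by ring
          _ ≤ X := hQX'
      calc ((Q : ℝ) ^ 2 * R.card / X) * R.card ≤ 1 * R.card :=
            mul_le_mul_of_nonneg_right h5 (by positivity)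
        _ = _ := one_mul _
    have h6 : (R.card : ℝ) + 2 ^ N * ((Q : ℝ) ^ 2 / X) * (R.card : ℝ) ^ 2 ≤ (1 + 2 ^ N) * l := by
      have h7 : (2 : ℝ) ^ N * ((Q : ℝ) ^ 2 / X) * (R.card : ℝ) ^ 2 =
          2 ^ N * (((Q : ℝ) ^ 2 / X) * (R.card : ℝ) ^ 2) := by ring
      rw [h7]
      have h8 := mul_le_mul_of_nonneg_left (h3.trans hRl) (show (0 : ℝ) ≤ 2 ^ N by positivity)
      linarith
    have h9 := mul_le_mul_of_nonneg_left h6 (show (0 : ℝ) ≤ 4 * K ^ 2 * (X : ℝ) ^ N by positivity)
    refine h9.trans (le_of_eq ?_)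
    rw [hV]
    ring
  have h := hC (ι → ℤ) (box A X) T V hV0 hblock L J hL B hB (by
    intro n hn
    obtain ⟨j, h1, h2, h3⟩ := hBj n hn
    refine ⟨j, h1, h2, ?_⟩
    have h4 : ∑ i ∈ range j, T i n = dev G P n j := by
      unfold dev
      refine sum_congr rfl fun i hi => ?_
      rw [hT]
      simp only
      rw [if_pos (lt_of_lt_of_le (mem_range.1 hi) h2)]
    rw [h4]
    exact h3)
  refine h.trans (le_of_eq ?_)
  rw [hV]
  ring

/-! ### Means over the good primes -/

open Classical in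
/-- The mean of `F` over the good vectors modulo `p`. -/
noncomputable def vert (Good : (p : ℕ) → (ι → ZMod p) → Prop) (F : (p : ℕ) → (ι → ZMod p) → ℝ)
    (p : ℕ) : ℝ :=
  (∑ᶠ r : {r : ι → ZMod p // Good p r}, F p r) / (Nat.card {r : ι → ZMod p // Good p r} : ℝ)

open Classical in
/-- The mean of `F` over the primes, among the first `j` primes of the sequence `P`, at which `n` is
good. -/
noncomputable def hor (Good : (p : ℕ) → (ι → ZMod p) → Prop) (F : (p : ℕ) → (ι → ZMod p) → ℝ)
    (P : ℕ → ℕ) (n : ι → ℤ) (j : ℕ) : ℝ :=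
  (∑ i ∈ (range j).filter (fun i => Good (P i) (red (P i) n)), F (P i) (red (P i) n)) /
    (((range j).filter (fun i => Good (P i) (red (P i) n))).card : ℝ)

/-- the sum of `1 / p` over distinct primes -/
lemma sum_inv {J : ℕ} {P : ℕ → ℕ} (hP : ∀ i < J, (P i).Prime) (hinj : Set.InjOn P (Set.Iio J))
    {j : ℕ} (hj : j ≤ J) : ∑ i ∈ range j, (1 : ℝ) / P i ≤ 2 * √(j : ℝ) := by
  -- at most `√j` of the primes are below `√j`; trivial bounds suffice
  classical
  rcases Nat.eq_zero_or_pos j with h0 | h0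
  · subst h0; simp
  set S := (range j).image P with hS
  have hinj' : Set.InjOn P ((range j : Finset ℕ) : Set ℕ) := by
    intro a ha b hb hab
    rw [mem_coe, mem_range] at ha hb
    exact hinj (lt_of_lt_of_le ha hj) (lt_of_lt_of_le hb hj) hab
  have h1 : ∑ i ∈ range j, (1 : ℝ) / P i = ∑ p ∈ S, (1 : ℝ) / p := by
    rw [hS, sum_image (fun x hx y hy hxy => hinj' hx hy hxy)]
  rw [h1]
  set s := √(j : ℝ) with hs
  have hj0 : (0 : ℝ) < j := by exact_mod_cast h0
  have hs0 : 0 < s := Real.sqrt_pos.2 hj0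
  have hss : s * s = j := Real.mul_self_sqrt hj0.le
  have hS1 : ∀ p ∈ S, 1 ≤ p := by
    intro p hp
    rw [hS, mem_image] at hp
    obtain ⟨i, hi, rfl⟩ := hp
    exact (hP i (lt_of_lt_of_le (mem_range.1 hi) hj)).pos
  have hU1 : ∀ p ∈ S.filter (fun p : ℕ => (p : ℝ) ≤ s), (1 : ℝ) / (p : ℕ) ≤ 1 := by
    intro p hp
    have : (1 : ℝ) ≤ p := by exact_mod_cast hS1 p (mem_filter.1 hp).1
    rw [div_le_one (by linarith)]
    exact this
  have h2 : ∑ p ∈ S.filter (fun p : ℕ => (p : ℝ) ≤ s), (1 : ℝ) / (p : ℕ) ≤ s := by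
    have h3 : S.filter (fun p : ℕ => (p : ℝ) ≤ s) ⊆ Icc 1 ⌊s⌋₊ := by
      intro p hp
      rw [mem_filter] at hp
      rw [mem_Icc]
      exact ⟨hS1 p hp.1, Nat.le_floor hp.2⟩
    refine (sum_le_sum hU1).trans ?_
    rw [sum_const, nsmul_eq_mul, mul_one]
    refine le_trans (by exact_mod_cast card_le_card h3 : _ ≤ ((Icc 1 ⌊s⌋₊).card : ℝ)) ?_
    rw [Nat.card_Icc, Nat.add_sub_cancel]
    exact Nat.floor_le hs0.le
  have h4 : ∑ p ∈ S.filter (fun p : ℕ => ¬ (p : ℝ) ≤ s), (1 : ℝ) / (p : ℕ) ≤ s := by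
    have h5 : ∀ p ∈ S.filter (fun p : ℕ => ¬ (p : ℝ) ≤ s), (1 : ℝ) / (p : ℕ) ≤ 1 / s := by
      intro p hp
      have := (mem_filter.1 hp).2
      push Not at this
      exact one_div_le_one_div_of_le hs0 this.le
    refine (sum_le_sum h5).trans ?_
    rw [sum_const, nsmul_eq_mul]
    have h6 : ((S.filter (fun p : ℕ => ¬ (p : ℝ) ≤ s)).card : ℝ) ≤ j := by
      have : (S.filter (fun p : ℕ => ¬ (p : ℝ) ≤ s)).card ≤ j := by
        refine (card_filter_le _ _).trans (card_image_le.trans ?_)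
        rw [card_range]
      exact_mod_cast this
    refine (mul_le_mul_of_nonneg_right h6 (by positivity)).trans (le_of_eq ?_)
    rw [← hss]
    field_simp
  rw [← sum_filter_add_sum_filter_not S (fun p : ℕ => (p : ℝ) ≤ s)]
  linarith

open Classical in
/-- the good indicator -/
noncomputable def G0 (Good : (p : ℕ) → (ι → ZMod p) → Prop) (p : ℕ) (r : ι → ZMod p) : ℝ :=
  if Good p r then 1 else 0

open Classical in
/-- `F` on the good vectors -/
noncomputable def GF (Good : (p : ℕ) → (ι → ZMod p) → Prop) (F : (p : ℕ) → (ι → ZMod p) → ℝ)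
    (p : ℕ) (r : ι → ZMod p) : ℝ := if Good p r then F p r else 0

lemma abs_G0 (Good : (p : ℕ) → (ι → ZMod p) → Prop) (p : ℕ) (r : ι → ZMod p) :
    |G0 Good p r| ≤ 1 := by
  unfold G0; split_ifs <;> simp

lemma abs_GF {Good : (p : ℕ) → (ι → ZMod p) → Prop} {F : (p : ℕ) → (ι → ZMod p) → ℝ} {K : ℝ}
    (hK : 0 ≤ K) {p : ℕ} (hF : ∀ r, Good p r → |F p r| ≤ K) (r : ι → ZMod p) :
    |GF Good F p r| ≤ K := by
  unfold GF
  split_ifs with h
  · exact hF r h
  · simpa using hK

section

variable (Good : (p : ℕ) → (ι → ZMod p) → Prop) (F : (p : ℕ) → (ι → ZMod p) → ℝ)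

lemma hor_eq (P : ℕ → ℕ) (n : ι → ℤ) (j : ℕ) : hor Good F P n j =
    (∑ i ∈ range j, GF Good F (P i) (red (P i) n)) / ∑ i ∈ range j, G0 Good (P i) (red (P i) n) := by
  classical
  unfold hor GF G0
  rw [sum_filter]
  congr 1
  rw [← sum_filter, sum_const, nsmul_eq_mul, mul_one]

lemma mean_G0 {p : ℕ} [NeZero p] : mean p (G0 Good p) =
    (Nat.card {r : ι → ZMod p // Good p r} : ℝ) / (p : ℝ) ^ Fintype.card ι := by
  classical
  rw [mean_eq]
  congr 1
  unfold G0
  rw [← sum_filter, sum_const, nsmul_eq_mul, mul_one, Nat.card_eq_fintype_card,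
    Fintype.card_subtype]

lemma mean_GF {p : ℕ} [NeZero p] : mean p (GF Good F p) = vert Good F p * mean p (G0 Good p) := by
  classical
  have h1 : ∑ᶠ r : {r : ι → ZMod p // Good p r}, F p r = ∑ r, GF Good F p r := by
    rw [finsum_eq_sum_of_fintype]
    unfold GF
    rw [← sum_filter]
    exact (sum_subtype (univ.filter fun r => Good p r) (by simp) (fun r => F p r)).symm
  rw [mean_G0, mean_eq, vert, h1]
  rcases Nat.eq_zero_or_pos (Nat.card {r : ι → ZMod p // Good p r}) with h0 | h0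
  · have h2 : ∑ r, GF Good F p r = 0 := by
      refine sum_eq_zero fun r _ => ?_
      unfold GF
      rw [if_neg]
      intro h
      rw [Nat.card_eq_zero] at h0
      rcases h0 with h0 | h0
      · exact h0.false ⟨r, h⟩
      · exact (not_finite_iff_infinite.2 h0) inferInstance
    rw [h2]; simp
  · have h3 : ((Nat.card {r : ι → ZMod p // Good p r} : ℕ) : ℝ) ≠ 0 := by
      exact_mod_cast h0.ne'
    field_simp

lemma abs_vert {K : ℝ} (hK : 0 ≤ K) {p : ℕ} [NeZero p] (hF : ∀ r, Good p r → |F p r| ≤ K) :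
    |vert Good F p| ≤ K := by
  classical
  unfold vert
  rw [finsum_eq_sum_of_fintype, abs_div, Nat.abs_cast]
  rcases Nat.eq_zero_or_pos (Nat.card {r : ι → ZMod p // Good p r}) with h0 | h0
  · rw [h0]; simpa using hK
  · have h3 : (0 : ℝ) < ((Nat.card {r : ι → ZMod p // Good p r} : ℕ) : ℝ) := by
      exact_mod_cast h0
    rw [div_le_iff₀ h3]
    refine (abs_sum_le_sum_abs _ _).trans ?_
    refine (sum_le_sum (g := fun _ => K) fun r _ => hF r.1 r.2).trans (le_of_eq ?_)
    rw [sum_const, nsmul_eq_mul, card_univ, Nat.card_eq_fintype_card, mul_comm]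

/-- few vectors are not good -/
def Few (c : ℝ) : Prop :=
  ∀ p : ℕ, p.Prime → (Nat.card {r : ι → ZMod p // ¬ Good p r} : ℝ) ≤ c / p * (p : ℝ) ^ Fintype.card ι

lemma mean_G0_near {c : ℝ} (h : Few Good c) {p : ℕ} (hp : p.Prime) :
    |mean p (G0 Good p) - 1| ≤ c * (1 / p) := by
  classical
  haveI : NeZero p := ⟨hp.ne_zero⟩
  have hp0 : (0 : ℝ) < (p : ℝ) ^ Fintype.card ι := by
    have : (0 : ℝ) < p := by exact_mod_cast hp.pos
    positivity
  rw [mean_G0]
  have h1 : Nat.card {r : ι → ZMod p // Good p r} + Nat.card {r : ι → ZMod p // ¬ Good p r} =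
      p ^ Fintype.card ι := by
    rw [Nat.card_eq_fintype_card, Nat.card_eq_fintype_card, Fintype.card_subtype_compl,
      Fintype.card_pi]
    simp only [ZMod.card, prod_const, card_univ]
    have := Fintype.card_subtype_le (fun r : ι → ZMod p => Good p r)
    rw [Fintype.card_pi] at this
    simp only [ZMod.card, prod_const, card_univ] at this
    omega
  have h2 : (Nat.card {r : ι → ZMod p // Good p r} : ℝ) +
      (Nat.card {r : ι → ZMod p // ¬ Good p r} : ℝ) = (p : ℝ) ^ Fintype.card ι := by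
    exact_mod_cast h1
  have h3 : (Nat.card {r : ι → ZMod p // Good p r} : ℝ) / (p : ℝ) ^ Fintype.card ι - 1 =
      -((Nat.card {r : ι → ZMod p // ¬ Good p r} : ℝ) / (p : ℝ) ^ Fintype.card ι) := by
    field_simp
    linarith
  rw [h3, abs_neg, abs_of_nonneg (by positivity), div_le_iff₀ hp0]
  refine (h p hp).trans (le_of_eq ?_)
  rw [mul_one_div]

end

/-- **Horizontal means over good primes are vertical means, with square-root error, at all
scales.** -/
theorem hvGood (ι : Type) [Fintype ι] [DecidableEq ι] {δ K c : ℝ} (hδ : 0 < δ) (hδ1 : δ ≤ 1 / 2)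
    (hK : 0 ≤ K) (hc : 0 ≤ c) :
    ∃ C : ℝ, 0 ≤ C ∧ ∀ (Good : (p : ℕ) → (ι → ZMod p) → Prop) (F : (p : ℕ) → (ι → ZMod p) → ℝ),
      (∀ p : ℕ, p.Prime → ∀ r, Good p r → |F p r| ≤ K) → Few Good c →
      ∀ (X L J Q : ℕ) (A : ι → ℤ) (P : ℕ → ℕ), 1 ≤ L → 1 ≤ X → Q ^ 3 ≤ X →
      (∀ i < J, (P i).Prime ∧ P i ≤ Q) → Set.InjOn P (Set.Iio J) →
      ∀ B : Finset (ι → ℤ), B ⊆ box A X →
        (∀ n ∈ B, ∃ j, L ≤ j ∧ j ≤ J ∧ (j : ℝ) ^ (-(1 / 2) + δ) <
          |hor Good F P n j - (∑ i ∈ range j, vert Good F (P i)) / j|) →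
        (B.card : ℝ) ≤ C * (1 / (L : ℝ) ^ (δ / 2)) * (X : ℝ) ^ Fintype.card ι := by
  classical
  obtain ⟨C1, hC1, h1⟩ := hv ι (half_pos hδ) hK
  obtain ⟨C0, hC0, h0⟩ := hv ι (half_pos hδ) zero_le_one
  set D : ℝ := 2 * (1 + 2 * K) * (1 + 2 * c) with hD
  have hD0 : 0 ≤ D := by positivity
  refine ⟨C1 + C0 + D, by positivity, ?_⟩
  intro Good F hF hfew X L J Q A P hL hX hQX hP hinj B hB hBj
  have hX0 : (0 : ℝ) < X := by exact_mod_cast hX
  have hL1 : (1 : ℝ) ≤ L := by exact_mod_cast hL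
  have hLp : 0 < (L : ℝ) ^ (δ / 2) := by positivity
  set W := (X : ℝ) ^ Fintype.card ι with hW
  have hW0 : 0 < W := by positivity
  rcases lt_or_ge ((L : ℝ) ^ (δ / 2)) D with hsmall | hlarge
  · have hB1 : (B.card : ℝ) ≤ W := by
      have := card_le_card hB
      rw [box_card] at this
      rw [hW]
      exact_mod_cast this
    refine hB1.trans ?_
    have h2 : 1 ≤ D * (1 / (L : ℝ) ^ (δ / 2)) := by
      rw [mul_one_div, le_div_iff₀ hLp]; linarith
    calc W = 1 * W := (one_mul _).symm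
      _ ≤ (D * (1 / (L : ℝ) ^ (δ / 2))) * W := mul_le_mul_of_nonneg_right h2 hW0.le
      _ ≤ _ := by
        refine mul_le_mul_of_nonneg_right ?_ hW0.le
        refine mul_le_mul_of_nonneg_right ?_ (by positivity)
        linarith
  · set B1 := B.filter (fun n => ∃ j, L ≤ j ∧ j ≤ J ∧ (j : ℝ) ^ (1 / 2 + δ / 2) <
      |dev (GF Good F) P n j|) with hB1
    set B0 := B.filter (fun n => ∃ j, L ≤ j ∧ j ≤ J ∧ (j : ℝ) ^ (1 / 2 + δ / 2) <
      |dev (G0 Good) P n j|) with hB0
    have hb1 := h1 (GF Good F) (fun p hp r => abs_GF hK (hF p hp) r) X L J Q A P hL hX hQX hP hinj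
      B1 ((filter_subset _ _).trans hB) (fun n hn => (mem_filter.1 hn).2)
    have hb0 := h0 (G0 Good) (fun p hp r => abs_G0 Good p r) X L J Q A P hL hX hQX hP hinj
      B0 ((filter_subset _ _).trans hB) (fun n hn => (mem_filter.1 hn).2)
    have hcov : B ⊆ B1 ∪ B0 := by
      intro n hn
      by_contra hno
      rw [mem_union, hB1, hB0, mem_filter, mem_filter] at hno
      push Not at hno
      obtain ⟨hn1, hn0⟩ := hno
      obtain ⟨j, hLj, hjJ, hlt⟩ := hBj n hn
      have hF1 := hn1 hn j hLj hjJ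
      have hF0 := hn0 hn j hLj hjJ
      have hj1 : (1 : ℝ) ≤ j := by exact_mod_cast hL.trans hLj
      have hj0 : (0 : ℝ) < j := by linarith
      set e : ℝ := (j : ℝ) ^ (1 / 2 + δ / 2) with he
      have he0 : 0 < e := by positivity
      have hsq : √(j : ℝ) ≤ e := by
        rw [Real.sqrt_eq_rpow, he]
        exact Real.rpow_le_rpow_of_exponent_le hj1 (by linarith)
      have hinv := sum_inv (fun i hi => (hP i hi).1) hinj hjJ
      have hprime : ∀ i ∈ range j, (P i).Prime := fun i hi =>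
        (hP i (lt_of_lt_of_le (mem_range.1 hi) hjJ)).1
      set S0 := ∑ i ∈ range j, G0 Good (P i) (red (P i) n) with hS0
      set SF := ∑ i ∈ range j, GF Good F (P i) (red (P i) n) with hSF
      set SV := ∑ i ∈ range j, vert Good F (P i) with hSV
      have k0 : |S0 - j| ≤ (1 + 2 * c) * e := by
        have e1 : S0 - j = dev (G0 Good) P n j + ∑ i ∈ range j, (mean (P i) (G0 Good (P i)) - 1) := by
          unfold dev
          rw [← sum_add_distrib, hS0]
          have : (j : ℝ) = ∑ _i ∈ range j, (1 : ℝ) := by simp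
          rw [this, ← sum_sub_distrib]
          refine sum_congr rfl fun i _ => by ring
        rw [e1]
        refine (abs_add_le _ _).trans ?_
        have e2 : |∑ i ∈ range j, (mean (P i) (G0 Good (P i)) - 1)| ≤ c * (2 * √(j : ℝ)) := by
          refine (abs_sum_le_sum_abs _ _).trans ?_
          refine (sum_le_sum fun i hi => mean_G0_near Good hfew (hprime i hi)).trans ?_
          rw [← mul_sum]
          exact mul_le_mul_of_nonneg_left hinv hc
        have e3 := mul_le_mul_of_nonneg_left hsq hc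
        nlinarith
      have kF : |SF - SV| ≤ (1 + 2 * K * c) * e := by
        have e1 : SF - SV = dev (GF Good F) P n j +
            ∑ i ∈ range j, (mean (P i) (GF Good F (P i)) - vert Good F (P i)) := by
          unfold dev
          rw [← sum_add_distrib, hSF, hSV, ← sum_sub_distrib]
          refine sum_congr rfl fun i _ => by ring
        rw [e1]
        refine (abs_add_le _ _).trans ?_
        have e2 : |∑ i ∈ range j, (mean (P i) (GF Good F (P i)) - vert Good F (P i))| ≤
            K * (c * (2 * √(j : ℝ))) := by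
          refine (abs_sum_le_sum_abs _ _).trans ?_
          refine (sum_le_sum (g := fun i => K * (c * (1 / (P i : ℝ)))) fun i hi => ?_).trans ?_
          · haveI : NeZero (P i) := ⟨(hprime i hi).ne_zero⟩
            rw [mean_GF]
            have e3 : vert Good F (P i) * mean (P i) (G0 Good (P i)) - vert Good F (P i) =
                vert Good F (P i) * (mean (P i) (G0 Good (P i)) - 1) := by ring
            rw [e3, abs_mul]
            exact mul_le_mul (abs_vert Good F hK (hF _ (hprime i hi)))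
              (mean_G0_near Good hfew (hprime i hi)) (abs_nonneg _) hK
          · rw [← mul_sum, ← mul_sum]
            exact mul_le_mul_of_nonneg_left (mul_le_mul_of_nonneg_left hinv hc) hK
        have e3 := mul_le_mul_of_nonneg_left (mul_le_mul_of_nonneg_left hsq hc) hK
        nlinarith
      have kV : |SV| ≤ K * j := by
        refine (abs_sum_le_sum_abs _ _).trans ?_
        refine (sum_le_sum (g := fun _ => K) fun i hi => ?_).trans (le_of_eq ?_)
        · haveI : NeZero (P i) := ⟨(hprime i hi).ne_zero⟩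
          exact abs_vert Good F hK (hF _ (hprime i hi))
        · rw [sum_const, nsmul_eq_mul, card_range, mul_comm]
      -- sizes
      have hjD : D ≤ (j : ℝ) ^ (δ / 2) := hlarge.trans
        (Real.rpow_le_rpow (by linarith) (by exact_mod_cast hLj) (by linarith))
      have hje : e * (j : ℝ) ^ (δ / 2) ≤ j := by
        rw [he, ← Real.rpow_add hj0]
        calc (j : ℝ) ^ (1 / 2 + δ / 2 + δ / 2) ≤ (j : ℝ) ^ (1 : ℝ) :=
              Real.rpow_le_rpow_of_exponent_le hj1 (by linarith)
          _ = j := Real.rpow_one _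
      have heD : e * D ≤ j := (mul_le_mul_of_nonneg_left hjD he0.le).trans hje
      have hKc : 0 ≤ K * c := mul_nonneg hK hc
      have hbig : (1 + 2 * c) * e ≤ j / 2 := by
        have : 2 * (1 + 2 * c) * e ≤ e * D := by
          rw [hD]
          have : 0 ≤ K * (1 + 2 * c) * e := by positivity
          nlinarith
        linarith
      have hS0h : (j : ℝ) / 2 ≤ S0 := by
        have := (abs_le.1 k0).1
        linarith
      have hS00 : 0 < S0 := by linarith
      have hfin : |SF / S0 - SV / j| ≤ (j : ℝ) ^ (-(1 / 2) + δ) := by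
        have e1 : SF / S0 - SV / j = ((SF - SV) * j - SV * (S0 - j)) / (S0 * j) := by
          field_simp
          ring
        rw [e1, abs_div, abs_of_pos (mul_pos hS00 hj0), div_le_iff₀ (mul_pos hS00 hj0)]
        have e2 : |(SF - SV) * j - SV * (S0 - j)| ≤ (1 + 2 * K * c) * e * j + K * j * ((1 + 2 * c) * e) := by
          refine (abs_sub _ _).trans ?_
          rw [abs_mul, abs_mul, abs_of_pos hj0]
          exact add_le_add (mul_le_mul_of_nonneg_right kF hj0.le)
            (mul_le_mul kV k0 (abs_nonneg _) (by positivity))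
        refine e2.trans ?_
        have e3 : (1 + 2 * K * c) * e * j + K * j * ((1 + 2 * c) * e) ≤ (D / 2) * e * j := by
          rw [hD]
          have : 0 ≤ e * j := by positivity
          have h4 : 0 ≤ K * (e * j) := by positivity
          have h5 : 0 ≤ c * (e * j) := by positivity
          have h6 : 0 ≤ K * c * (e * j) := by positivity
          nlinarith
        refine e3.trans ?_
        have e4 : (j : ℝ) ^ (-(1 / 2) + δ) * j = e * (j : ℝ) ^ (δ / 2) := by
          rw [he, ← Real.rpow_add hj0, ← Real.rpow_add_one hj0.ne']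
          congr 1
          ring
        calc (D / 2) * e * j ≤ ((j : ℝ) ^ (δ / 2) / 2) * e * j := by
              refine mul_le_mul_of_nonneg_right ?_ hj0.le
              refine mul_le_mul_of_nonneg_right ?_ he0.le
              linarith
          _ = ((j : ℝ) ^ (-(1 / 2) + δ) * j) * (j / 2) := by rw [e4]; ring
          _ ≤ ((j : ℝ) ^ (-(1 / 2) + δ) * j) * S0 :=
              mul_le_mul_of_nonneg_left hS0h (by positivity)
          _ = _ := by ring
      rw [hor_eq] at hlt
      exact absurd hlt (not_lt.2 hfin)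
    have hcard : (B.card : ℝ) ≤ B1.card + B0.card := by
      exact_mod_cast (card_le_card hcov).trans (card_union_le _ _)
    refine hcard.trans ((add_le_add hb1 hb0).trans ?_)
    have h5 : 0 ≤ D * (1 / (L : ℝ) ^ (δ / 2)) * W := by positivity
    nlinarith

end Pool.Agent.Q14.HV
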