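import Pool.Agent.Q14.ST.Box

/-!
# A maximal inequality (Rademacher-Menshov) and square-root cancellation at all scales
-/

set_option autoImplicit false

namespace Pool.Agent.Q14.HV

open Finset

variable {α : Type}

/-- Maximal inequality for dyadic lengths. -/
lemma dyadic (S : Finset α) (T : ℕ → α → ℝ) {V : ℝ} (hV : 0 ≤ V)
    (hT : ∀ a l : ℕ, ∑ n ∈ S, (∑ i ∈ Ico a (a + l), T i n) ^ 2 ≤ V * l) (k : ℕ) :
    ∀ a : ℕ, ∃ M : α → ℝ, (∀ n, 0 ≤ M n) ∧
      (∀ n, ∀ j ≤ 2 ^ k, |∑ i ∈ Ico a (a + j), T i n| ≤ M n) ∧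
      ∑ n ∈ S, (M n) ^ 2 ≤ V * ((k + 1 : ℕ) : ℝ) ^ 2 * 2 ^ k := by
  induction k with
  | zero =>
    intro a
    refine ⟨fun n => |T a n|, fun n => abs_nonneg _, ?_, ?_⟩
    · intro n j hj
      rw [pow_zero] at hj
      interval_cases j
      · simp
      · simp
    · have h := hT a 1
      simp only [Nat.Ico_succ_singleton, sum_singleton, Nat.cast_one, mul_one] at h
      simpa [sq_abs] using h
  | succ k ih =>
    intro a
    obtain ⟨M1, h10, h11, h12⟩ := ih a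
    obtain ⟨M2, h20, h21, h22⟩ := ih (a + 2 ^ k)
    refine ⟨fun n => max (M1 n) (|∑ i ∈ Ico a (a + 2 ^ k), T i n| + M2 n),
      fun n => le_max_of_le_left (h10 n), ?_, ?_⟩
    · intro n j hj
      by_cases hjk : j ≤ 2 ^ k
      · exact (h11 n j hjk).trans (le_max_left _ _)
      · push Not at hjk
        refine le_trans ?_ (le_max_right _ _)
        obtain ⟨i, rfl⟩ := Nat.exists_eq_add_of_le hjk.le
        have h1 : ∑ x ∈ Ico a (a + (2 ^ k + i)), T x n =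
            ∑ x ∈ Ico a (a + 2 ^ k), T x n + ∑ x ∈ Ico (a + 2 ^ k) (a + 2 ^ k + i), T x n := by
          rw [sum_Ico_consecutive _ (by omega) (by omega), add_assoc]
        rw [h1]
        refine (abs_add_le _ _).trans ?_
        have h2 := h21 n i (by rw [pow_succ] at hj; omega)
        linarith
    · have hS := hT a (2 ^ k)
      have hk0 : (0 : ℝ) < (k : ℝ) + 1 := by positivity
      have hpt : ∀ n, (max (M1 n) (|∑ i ∈ Ico a (a + 2 ^ k), T i n| + M2 n)) ^ 2 ≤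
          M1 n ^ 2 + ((k + 2) * (∑ i ∈ Ico a (a + 2 ^ k), T i n) ^ 2 +
            (k + 2) / (k + 1) * M2 n ^ 2) := by
        intro n
        have hx := sq_abs (∑ i ∈ Ico a (a + 2 ^ k), T i n)
        set x := |∑ i ∈ Ico a (a + 2 ^ k), T i n| with hxd
        have hx0 : 0 ≤ x := abs_nonneg _
        have hy0 := h20 n
        rw [← hx]
        have h1 : (x + M2 n) ^ 2 ≤ (k + 2) * x ^ 2 + (k + 2) / (k + 1) * M2 n ^ 2 := by
          have h3 : (k + 2 : ℝ) * x ^ 2 + (k + 2) / (k + 1) * M2 n ^ 2 - (x + M2 n) ^ 2 =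
              ((k + 1) * x - M2 n) ^ 2 / (k + 1) := by
            field_simp
            ring
          have h4 : 0 ≤ ((k + 1) * x - M2 n) ^ 2 / (k + 1) := by positivity
          linarith
        rcases le_total (M1 n) (x + M2 n) with h | h
        · rw [max_eq_right h]
          have := sq_nonneg (M1 n)
          linarith
        · rw [max_eq_left h]
          have h5 : 0 ≤ (k + 2 : ℝ) * x ^ 2 + (k + 2) / (k + 1) * M2 n ^ 2 := by positivity
          linarith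
      refine (sum_le_sum fun n _ => hpt n).trans ?_
      rw [sum_add_distrib, sum_add_distrib, ← mul_sum, ← mul_sum]
      have h3 : (k + 2 : ℝ) * ∑ n ∈ S, (∑ i ∈ Ico a (a + 2 ^ k), T i n) ^ 2 ≤
          (k + 2) * (V * 2 ^ k) := by
        refine mul_le_mul_of_nonneg_left ?_ (by positivity)
        push_cast at hS
        exact hS
      have h4 : (k + 2 : ℝ) / (k + 1) * ∑ n ∈ S, M2 n ^ 2 ≤
          (k + 2) / (k + 1) * (V * ((k + 1 : ℕ) : ℝ) ^ 2 * 2 ^ k) :=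
        mul_le_mul_of_nonneg_left h22 (by positivity)
      have h5 : (k + 2 : ℝ) / (k + 1) * (V * ((k + 1 : ℕ) : ℝ) ^ 2 * 2 ^ k) =
          (k + 2) * (k + 1) * (V * 2 ^ k) := by
        push_cast
        field_simp
      rw [h5] at h4
      have h6 : 0 ≤ V * 2 ^ k := by positivity
      have h7 : V * ((k + 1 : ℕ) : ℝ) ^ 2 * 2 ^ k = (k + 1) ^ 2 * (V * 2 ^ k) := by push_cast; ring
      have h8 : V * ((k + 1 + 1 : ℕ) : ℝ) ^ 2 * 2 ^ (k + 1) = 2 * (k + 2) ^ 2 * (V * 2 ^ k) := by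
        push_cast; ring
      rw [h8]
      rw [h7] at h12
      have h9 : (0 : ℝ) ≤ k := Nat.cast_nonneg k
      nlinarith [mul_nonneg h9 h6]

/-- Square-root cancellation at all scales from the second moments. -/
theorem all_scales {δ : ℝ} (hδ : 0 < δ) :
    ∃ C : ℝ, 0 ≤ C ∧ ∀ (α : Type) (S : Finset α) (T : ℕ → α → ℝ) (V : ℝ), 0 ≤ V →
      (∀ a l : ℕ, ∑ n ∈ S, (∑ i ∈ Ico a (a + l), T i n) ^ 2 ≤ V * l) → ∀ L J : ℕ, 1 ≤ L →
      ∀ B : Finset α, B ⊆ S →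
        (∀ n ∈ B, ∃ j, L ≤ j ∧ j ≤ J ∧ (j : ℝ) ^ (1 / 2 + δ) < |∑ i ∈ range j, T i n|) →
        (B.card : ℝ) ≤ C * V * (1 / (L : ℝ) ^ δ) := by
  have hr1 : (2 : ℝ) ^ (-δ) < 1 := Real.rpow_lt_one_of_one_lt_of_neg (by norm_num) (by linarith)
  have hr0 : 0 < (2 : ℝ) ^ (-δ) := by positivity
  have hsum : Summable fun k : ℕ => ((k : ℝ) + 1) ^ 2 * ((2 : ℝ) ^ (-δ)) ^ k := by
    have h1 : Summable fun k : ℕ => (k : ℝ) ^ 2 * ((2 : ℝ) ^ (-δ)) ^ k :=
      summable_pow_mul_geometric_of_norm_lt_one 2 (by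
        rw [Real.norm_eq_abs, abs_of_pos hr0]; exact hr1)
    have h2 : Summable fun k : ℕ => (k : ℝ) ^ 1 * ((2 : ℝ) ^ (-δ)) ^ k :=
      summable_pow_mul_geometric_of_norm_lt_one 1 (by
        rw [Real.norm_eq_abs, abs_of_pos hr0]; exact hr1)
    have h3 : Summable fun k : ℕ => ((2 : ℝ) ^ (-δ)) ^ k := summable_geometric_of_lt_one hr0.le hr1
    refine ((h1.add (h2.mul_left 2)).add h3).congr fun k => ?_
    ring
  set Z := ∑' k : ℕ, ((k : ℝ) + 1) ^ 2 * ((2 : ℝ) ^ (-δ)) ^ k with hZ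
  have hZ0 : 0 ≤ Z := tsum_nonneg fun k => by positivity
  refine ⟨(2 : ℝ) ^ (1 + 2 * δ) * Z, by positivity, ?_⟩
  intro α S T V hV hT L J hL B hB hBj
  classical
  -- the exceptional set for the dyadic scale `2 ^ k`
  set E : ℕ → Finset α := fun k =>
    S.filter fun n => ∃ j ≤ 2 ^ k, ((2 : ℝ) ^ ((k : ℝ) - 1)) ^ (1 / 2 + δ) < |∑ i ∈ range j, T i n|
    with hE
  have hEc : ∀ k, ((E k).card : ℝ) ≤
      V * ((2 : ℝ) ^ (1 + 2 * δ) * (((k : ℝ) + 1) ^ 2 * ((2 : ℝ) ^ (-(2 * δ))) ^ k)) := by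
    intro k
    obtain ⟨M, h0, h1, h2⟩ := dyadic S T hV hT k 0
    set lam : ℝ := ((2 : ℝ) ^ ((k : ℝ) - 1)) ^ (1 / 2 + δ) with hlam
    have hlam0 : 0 < lam := by positivity
    have h3 : ((E k).card : ℝ) * lam ^ 2 ≤ V * ((k + 1 : ℕ) : ℝ) ^ 2 * 2 ^ k := by
      refine le_trans ?_ h2
      calc ((E k).card : ℝ) * lam ^ 2 = ∑ _n ∈ E k, lam ^ 2 := by rw [sum_const, nsmul_eq_mul]
        _ ≤ ∑ n ∈ E k, (M n) ^ 2 := by
            refine sum_le_sum fun n hn => ?_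
            rw [hE, mem_filter] at hn
            obtain ⟨-, j, hj, hlt⟩ := hn
            have h4 := h1 n j hj
            rw [zero_add, ← range_eq_Ico] at h4
            exact pow_le_pow_left₀ hlam0.le (hlt.le.trans h4) 2
        _ ≤ ∑ n ∈ S, (M n) ^ 2 :=
            sum_le_sum_of_subset_of_nonneg (filter_subset _ _) fun _ _ _ => sq_nonneg _
    have h4 : lam ^ 2 = (2 : ℝ) ^ (((k : ℝ) - 1) * (1 + 2 * δ)) := by
      rw [hlam, ← Real.rpow_mul (by norm_num), ← Real.rpow_natCast, ← Real.rpow_mul (by norm_num)]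
      congr 1
      push_cast
      ring
    have h5 : ((E k).card : ℝ) ≤ V * ((k + 1 : ℕ) : ℝ) ^ 2 * 2 ^ k / lam ^ 2 := by
      rw [le_div_iff₀ (by positivity)]
      exact h3
    refine h5.trans (le_of_eq ?_)
    rw [h4, div_eq_mul_inv, ← Real.rpow_neg (by norm_num), ← Real.rpow_natCast (2 : ℝ) k,
      ← Real.rpow_natCast ((2 : ℝ) ^ (-(2 * δ))) k, ← Real.rpow_mul (by norm_num : (0 : ℝ) ≤ 2) (-(2 * δ))]
    have h6 : (2 : ℝ) ^ (k : ℝ) * (2 : ℝ) ^ (-(((k : ℝ) - 1) * (1 + 2 * δ))) =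
        (2 : ℝ) ^ (1 + 2 * δ) * (2 : ℝ) ^ (-(2 * δ) * (k : ℝ)) := by
      rw [← Real.rpow_add (by norm_num), ← Real.rpow_add (by norm_num)]
      congr 1
      ring
    push_cast
    calc V * ((k : ℝ) + 1) ^ 2 * (2 : ℝ) ^ (k : ℝ) * (2 : ℝ) ^ (-(((k : ℝ) - 1) * (1 + 2 * δ))) =
          V * ((k : ℝ) + 1) ^ 2 *
            ((2 : ℝ) ^ (k : ℝ) * (2 : ℝ) ^ (-(((k : ℝ) - 1) * (1 + 2 * δ)))) := by ring
      _ = _ := by rw [h6]; ring
  -- covering
  set R := (range (Nat.clog 2 J + 1)).filter fun k => L ≤ 2 ^ k with hR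
  have hcov : B ⊆ R.biUnion E := by
    intro n hn
    obtain ⟨j, hLj, hjJ, hlt⟩ := hBj n hn
    rw [mem_biUnion]
    have hj1 : 1 ≤ j := hL.trans hLj
    refine ⟨Nat.clog 2 j, ?_, ?_⟩
    · rw [hR, mem_filter, mem_range]
      refine ⟨Nat.lt_succ_of_le (Nat.clog_mono_right 2 hjJ), hLj.trans (Nat.le_pow_clog (by norm_num) j)⟩
    · rw [hE]
      simp only [mem_filter]
      refine ⟨hB hn, j, Nat.le_pow_clog (by norm_num) j, lt_of_le_of_lt ?_ hlt⟩
      refine Real.rpow_le_rpow (by positivity) ?_ (by linarith)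
      rcases Nat.eq_or_lt_of_le hj1 with h | h
      · rw [← h, Nat.clog_one_right]
        simp only [Nat.cast_zero, Nat.cast_one]
        rw [show (0 : ℝ) - 1 = -1 by ring, Real.rpow_neg_one]
        norm_num
      · have hc : 1 ≤ Nat.clog 2 j := by
          have := Nat.clog_pos (b := 2) (by norm_num) (n := j) (by omega)
          omega
        have h1 : 2 ^ (Nat.clog 2 j - 1) < j := Nat.pow_pred_clog_lt_self (by norm_num) (by omega)
        have h2 : ((2 : ℝ) ^ ((Nat.clog 2 j : ℝ) - 1)) = ((2 ^ (Nat.clog 2 j - 1) : ℕ) : ℝ) := by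
          rw [Nat.cast_pow, ← Real.rpow_natCast, Nat.cast_sub hc]
          norm_num
        rw [h2]
        exact_mod_cast h1.le
  have hL0 : (0 : ℝ) < L := by exact_mod_cast hL
  calc (B.card : ℝ) ≤ ((R.biUnion E).card : ℝ) := by exact_mod_cast card_le_card hcov
    _ ≤ ∑ k ∈ R, ((E k).card : ℝ) := by exact_mod_cast card_biUnion_le
    _ ≤ ∑ k ∈ R, V * (2 : ℝ) ^ (1 + 2 * δ) * (1 / (L : ℝ) ^ δ) *
          (((k : ℝ) + 1) ^ 2 * ((2 : ℝ) ^ (-δ)) ^ k) := by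
        refine sum_le_sum fun k hk => (hEc k).trans ?_
        rw [hR, mem_filter] at hk
        have h1 : ((2 : ℝ) ^ (-(2 * δ))) ^ k = ((2 : ℝ) ^ (-δ)) ^ k * ((2 : ℝ) ^ (-δ)) ^ k := by
          rw [← mul_pow, ← Real.rpow_add (by norm_num)]
          congr 2
          ring
        have h2 : ((2 : ℝ) ^ (-δ)) ^ k ≤ 1 / (L : ℝ) ^ δ := by
          have h3 : ((2 : ℝ) ^ (-δ)) ^ k = 1 / ((2 : ℝ) ^ k) ^ δ := by
            rw [← Real.rpow_natCast, ← Real.rpow_natCast, ← Real.rpow_mul (by norm_num),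
              ← Real.rpow_mul (by norm_num), one_div, ← Real.rpow_neg (by norm_num)]
            congr 1
            ring
          rw [h3]
          refine one_div_le_one_div_of_le (by positivity) ?_
          refine Real.rpow_le_rpow hL0.le ?_ hδ.le
          exact_mod_cast hk.2
        rw [h1]
        have h4 : 0 ≤ V * (2 : ℝ) ^ (1 + 2 * δ) * (((k : ℝ) + 1) ^ 2 * ((2 : ℝ) ^ (-δ)) ^ k) := by
          positivity
        calc V * ((2 : ℝ) ^ (1 + 2 * δ) * (((k : ℝ) + 1) ^ 2 *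
              (((2 : ℝ) ^ (-δ)) ^ k * ((2 : ℝ) ^ (-δ)) ^ k))) =
            V * (2 : ℝ) ^ (1 + 2 * δ) * (((k : ℝ) + 1) ^ 2 * ((2 : ℝ) ^ (-δ)) ^ k) *
              ((2 : ℝ) ^ (-δ)) ^ k := by ring
          _ ≤ V * (2 : ℝ) ^ (1 + 2 * δ) * (((k : ℝ) + 1) ^ 2 * ((2 : ℝ) ^ (-δ)) ^ k) *
              (1 / (L : ℝ) ^ δ) := mul_le_mul_of_nonneg_left h2 h4
          _ = _ := by ring
    _ = V * (2 : ℝ) ^ (1 + 2 * δ) * (1 / (L : ℝ) ^ δ) *
          ∑ k ∈ R, (((k : ℝ) + 1) ^ 2 * ((2 : ℝ) ^ (-δ)) ^ k) := by rw [← mul_sum]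
    _ ≤ V * (2 : ℝ) ^ (1 + 2 * δ) * (1 / (L : ℝ) ^ δ) * Z := by
        refine mul_le_mul_of_nonneg_left ?_ (by positivity)
        exact hsum.sum_le_tsum R fun k _ => by positivity
    _ = _ := by ring

end Pool.Agent.Q14.HV
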